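import Mathlib
import Pool.Agent.Lib.MP_d96856_al.Main

namespace Pool.Agent.Lib.MP_d96856_al.Old.Reduction

open Pool.Agent.Lib.MP_d96856_al

theorem result (m n : ℕ) (H : Subgroup (Multiplicative (Fin m → ℤ) × FreeGroup (Fin n))) :
    (eStab H).FG ↔
      (∀ t : Multiplicative (Fin m → ℤ), ∃ N : ℕ, 0 < N ∧
        ∃ u ∈ commutator (FreeGroup (Fin n)), (t ^ N, u) ∈ H) ∧
      (eStab (H.map (MonoidHom.snd _ _))).FG ∧
      ((∃ z : Multiplicative (Fin m → ℤ) →* FreeGroup (Fin n), z ≠ 1 ∧ ∀ h ∈ H, h.2 = z h.1) →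
        ∃ S : Set (FreeGroup (Fin n) →* Multiplicative ℤ), S.Finite ∧
          ∀ δ : FreeGroup (Fin n) →* Multiplicative ℤ,
            ∃ s ∈ S, ∃ φ ∈ eStab (H.map (MonoidHom.snd _ _)), δ = s.comp φ) :=
  main H

end Pool.Agent.Lib.MP_d96856_al.Old.Reduction
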